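import Pool.Agent.Lib.helper10.Kit2
import Pool.Agent.Lib.helper10.Sat3

namespace Pool.Agent.Results.MP_d994ca_lc.CoNPHard

open Pool.Agent.Cx Pool.Agent.Cis Finset

/-- the entry `(i, j)` of a matrix of triples (sign, numerator, denominator) -/
def wt (W : List (List (Bool × List Bool × List Bool))) (i j : ℕ) : Bool × List Bool × List Bool :=
  (W.getD i []).getD j (false, [], [])

/-- the rational number coded by a sign and two binary numerals -/
def val (w : Bool × List Bool × List Bool) : ℚ := (if w.1 then -1 else 1) * bin w.2.1 / bin w.2.2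

/-- arcs have nonzero denominators and every negative directed cycle has an even number of arcs -/
def EvenNC (z : List (List Bool) × List (List (Bool × List Bool × List Bool))) : Prop :=
  (∀ i j, Entry z.1 i j → bin (wt z.2 i j).2.2 ≠ 0) ∧
  ∀ (m : ℕ) (c : Fin (m + 2) → Fin z.1.length), c.Injective → (∀ i, Entry z.1 (c i) (c (i + 1))) →
    ∑ i, val (wt z.2 (c i) (c (i + 1))) < 0 → Even (m + 2)

abbrev F := List (Lit × Lit × Lit)
abbrev Vy := ℕ × ℕ × ℕ

def lit (φ : F) (o : ℕ) : Lit :=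
  if o % 3 = 0 then (φ.getD (o / 3) ((0, false), (0, false), (0, false))).1 else
  if o % 3 = 1 then (φ.getD (o / 3) ((0, false), (0, false), (0, false))).2.1 else
    (φ.getD (o / 3) ((0, false), (0, false), (0, false))).2.2
def cf (φ : F) (o p : ℕ) : Prop :=
  o < 3 * φ.length ∧ p < 3 * φ.length ∧ (lit φ o).1 = (lit φ p).1 ∧ ¬ (lit φ o).2 = (lit φ p).2
def inn (φ : F) (x y : Vy) : Prop :=
  (x.1 = 0 ∧ y.1 = 0 ∧ cf φ x.2.1 x.2.2 ∧ y.2.1 = x.2.2 ∧ y.2.2 = x.2.1) ∨
    (x.1 + y.1 = 1 ∧ ¬ cf φ x.2.1 x.2.2 ∧ y.2.1 = x.2.1 ∧ y.2.2 = x.2.2)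
def rt (x : Vy) : Prop := x.1 = 2 ∧ x.2.1 = 0 ∧ x.2.2 = 0
def nx (m o q : ℕ) (y : Vy) : Prop := (rt y ∧ q = 3 * m + 2 ∧ 3 * m ≤ o) ∨
  (y.1 = 0 ∧ ((y.2.1 = o ∧ y.2.2 = q + 1) ∨ (q = 3 * m + 2 ∧ y.2.2 = 0 ∧ y.2.1 / 3 = o / 3 + 1)))
def gd (m : ℕ) (x y : Vy) : Prop := (rt x ∧ y.1 = 0 ∧ y.2.1 < 3 ∧ y.2.2 = 0) ∨
  (x.1 = 0 ∧ nx m x.2.2 x.2.1 y) ∨ (x.1 = 1 ∧ nx m x.2.1 x.2.2 y)
instance (φ : F) (o p : ℕ) : Decidable (cf φ o p) := by unfold cf; infer_instance
instance (φ : F) : DecidableRel (inn φ) := fun _ _ => by unfold inn; infer_instance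
instance : DecidablePred rt := fun _ => by unfold rt; infer_instance
instance (m : ℕ) : DecidableRel (gd m) := fun _ _ => by unfold gd nx; infer_instance
def cw (φ : F) (x y : Vy) : ℤ :=
  if inn φ x y then -1 else (if rt x ∨ rt y then 0 else 1) + if gd φ.length x y then 0 else 1
def code (φ : F) (x y : Vy) : Bool × List Bool × List Bool :=
  (decide (inn φ x y), [decide (inn φ x y ∨ ((rt x ∨ rt y) ∧ ¬ gd φ.length x y) ∨
    (¬ (rt x ∨ rt y) ∧ gd φ.length x y)), decide (¬ inn φ x y ∧ ¬ (rt x ∨ rt y) ∧ ¬ gd φ.length x y)], [true])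
def verts (φ : F) : List Vy :=
  List.range 3 ×ˢ List.range (3 * φ.length + 3) ×ˢ List.range (3 * φ.length + 3)
def red (φ : F) : List (List Bool) × List (List (Bool × List Bool × List Bool)) :=
  (mat (verts φ) fun p q => decide (p ≠ q), (verts φ).map fun p => (verts φ).map fun q => code φ p q)

lemma red_pt : PT red := by
  have b1 : PT verts := by unfold verts; fun_prop
  have b2 : PT fun z : F × ℕ => lit z.1 z.2 := by
    unfold lit
    refine PT.ite (PP.decide (by fun_prop)) (by fun_prop) (PT.ite (PP.decide (by fun_prop)) ?_ ?_) <;> fun_prop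
  have b3 : PP fun z : F × Vy × Vy => inn z.1 z.2.1 z.2.2 := by unfold inn cf; fun_prop
  have b4 : PP fun z : F × Vy × Vy => gd z.1.length z.2.1 z.2.2 := by unfold gd nx rt; fun_prop
  have b5 : PT fun z : F × Vy × Vy => code z.1 z.2.1 z.2.2 := by
    unfold code rt
    exact PT.pair (PP.decide b3) (PT.pair (PT.cons (PP.decide (by fun_prop))
      (PT.cons (PP.decide (by fun_prop)) (by fun_prop))) (by fun_prop))
  refine PT.pair (PT.mat b1 (PP.decide (by fun_prop))) (PT.map (PT.map ?_ (by fun_prop)) b1)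
  exact PT.comp (f := fun p : (F × Vy) × Vy => (p.1.1, p.1.2, p.2)) b5 (by fun_prop)

lemma val_code (φ : F) (x y : Vy) : val (code φ x y) = cw φ x y := by
  unfold cw
  by_cases a : inn φ x y <;> by_cases b : rt x ∨ rt y <;> by_cases c : gd φ.length x y <;>
    simp [val, code, bin, a, b, c]

variable {φ : F}

lemma cf.symm {o p : ℕ} (h : cf φ o p) : cf φ p o := ⟨h.2.1, h.1, h.2.2.1.symm, fun e => h.2.2.2 e.symm⟩

lemma inn2 {x y w : Vy} (a : inn φ x y) (b : inn φ y w) : w = x := by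
  have := @cf.symm φ x.2.1 x.2.2
  simp only [inn, Prod.ext_iff] at *
  grind

lemma bw {m : ℕ} {x : Fin (m + 2) → Vy} (h1 : x.Injective) (h2 : ∀ i, (x i).2.2 < 3 * φ.length + 3)
    (h3 : ∑ i, cw φ (x i) (x (i + 1)) < 0) (h4 : ¬ Even (m + 2)) : Sat3 φ := by
  classical
  have C : ∀ i, inn φ (x i) (x (i + 1)) → ¬ inn φ (x (i + 1)) (x (i + 1 + 1)) := fun i a b => by
    have := h1 (inn2 a b)
    rw [add_assoc, add_eq_left, Fin.ext_iff, Fin.val_add] at this
    obtain rfl : m = 0 := by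
      by_contra c
      rw [Fin.val_one, Nat.mod_eq_of_lt (by omega)] at this
      simp at this
    simp at h4
  have n1 : ∀ i, ¬ (rt (x i) ∧ rt (x (i + 1))) := fun i a => by
    have := h1 (show x i = x (i + 1) by simp only [rt, Prod.ext_iff] at *; omega)
    simp at this
  have n2 : ∀ {a b}, inn φ a b → ¬ rt a ∧ ¬ rt b := fun h => by simp only [inn, rt] at *; omega
  obtain ⟨e, he⟩ : ∃ e : Fin (m + 2) → ℤ, ∀ i, e i = if inn φ (x i) (x (i + 1)) then -1 else 1 :=
    ⟨_, fun _ => rfl⟩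
  obtain ⟨β, hβ⟩ : ∃ β : Fin (m + 2) → ℤ, ∀ i, β i = if rt (x i) then -1 else 1 := ⟨_, fun _ => rfl⟩
  obtain ⟨b, hb⟩ : ∃ b : Fin (m + 2) → ℤ, ∀ i, b i =
    if inn φ (x i) (x (i + 1)) ∨ gd φ.length (x i) (x (i + 1)) then 0 else 2 := ⟨_, fun _ => rfl⟩
  have s1 : ∑ i, (β (i + 1) * (e i + e (i + 1)) + b i) = 2 * ∑ i, cw φ (x i) (x (i + 1)) := by
    have := Equiv.sum_comp (Equiv.addRight (1 : Fin (m + 2))) fun i => β i * e i
    simp only [Equiv.coe_addRight] at this
    simp only [mul_add, sum_add_distrib, this, mul_sum]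
    simp only [← sum_add_distrib]
    refine sum_congr rfl fun i _ => ?_
    have := n1 i
    have := @n2 (x i) (x (i + 1))
    simp only [he, hβ, hb, cw]
    grind
  have s2 : ∀ i, ¬ rt (x (i + 1)) → 0 ≤ β (i + 1) * (e i + e (i + 1)) + b i := fun i a => by
    have := C i
    simp only [he, hβ, hb]
    grind
  obtain ⟨i0, r0⟩ : ∃ i, rt (x (i + 1)) := by
    by_contra! c
    have := sum_nonneg fun i (_ : i ∈ univ) => s2 i (c i)
    omega
  have s3 : ∀ i, rt (x (i + 1)) ↔ i = i0 := fun i => ⟨fun a => add_right_cancel (b := 1) (h1 (by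
    simp only [rt, Prod.ext_iff] at *; omega)), fun a => a ▸ r0⟩
  have s4 := (sum_eq_zero_iff_of_nonneg (s := univ)
    (f := fun i => β (i + 1) * (e i + e (i + 1)) + b i + if i = i0 then 2 else 0) fun i _ => by
      have := s2 i
      have := s3 i
      simp only [he, hβ, hb] at *
      grind).1 (le_antisymm (by rw [sum_add_distrib, s1]; simp; omega) (sum_nonneg fun i _ => by
      have := s2 i
      have := s3 i
      simp only [he, hβ, hb] at *
      grind))
  have A : ∀ i, (inn φ (x i) (x (i + 1)) ∨ gd φ.length (x i) (x (i + 1))) ∧ (rt (x (i + 1)) ∨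
      inn φ (x i) (x (i + 1)) ∨ inn φ (x (i + 1)) (x (i + 1 + 1))) := fun i => by
    have := s4 i (mem_univ _)
    have := s3 i
    have := C i
    have := @n2 (x i) (x (i + 1))
    have := @n2 (x (i + 1)) (x (i + 1 + 1))
    simp only [he, hβ, hb] at *
    grind
  obtain ⟨E, hE⟩ : ∃ E : ℕ → ℕ → Prop, ∀ o q, E o q ↔ ∃ i, x i = (0, o, q) ∧ inn φ (x i) (x (i + 1)) :=
    ⟨_, fun _ _ => Iff.rfl⟩
  have e1 : ∀ i, ¬ inn φ (x i) (x (i + 1)) → (x (i + 1)).1 = 0 → E (x (i + 1)).2.1 (x (i + 1)).2.2 :=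
    fun i a b => (hE _ _).2 ⟨i + 1, Prod.ext b rfl,
      ((A i).2.resolve_left (by simp [rt, b])).resolve_left a⟩
  have e2 : ∀ o q, E o q → ∃ y, nx φ.length o q y ∧ y.2.2 < 3 * φ.length + 3 ∧ (y.1 = 0 → E y.2.1 y.2.2) :=
    fun o q h => by
      obtain ⟨i, a, b⟩ := (hE _ _).1 h
      refine ⟨_, ?_, h2 _, e1 _ (C i b)⟩
      have := (A (i + 1)).1.resolve_left (C i b)
      have := n2 b
      rw [a] at b
      simp only [inn, gd] at *
      grind
  have e3 : ∀ o, E o 0 → ∀ q < 3 * φ.length + 3, E o q := fun o h q => by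
    induction q with
    | zero => exact fun _ => h
    | succ q ih =>
      intro c
      obtain ⟨y, a, -, b⟩ := e2 o q (ih (by omega))
      unfold nx at a
      grind
  have e4 : ∀ c ≤ φ.length, ∃ o, o / 3 = c ∧ E o 0 := fun c => by
    induction c with
    | zero =>
      intro _
      have a : ¬ inn φ (x (i0 + 1)) (x (i0 + 1 + 1)) := fun a => (n2 a).1 r0
      have := (A (i0 + 1)).1.resolve_left a
      have := e1 _ a
      simp only [gd, rt] at *
      exact ⟨(x (i0 + 1 + 1)).2.1, by grind⟩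
    | succ c ih =>
      intro h
      obtain ⟨o, o1, o2⟩ := ih (by omega)
      obtain ⟨y, a, d, b⟩ := e2 o _ (e3 o o2 (3 * φ.length + 2) (by omega))
      unfold nx at a
      exact ⟨y.2.1, by grind⟩
  choose! o o1 o2 using e4
  have nc : ∀ c < φ.length, ∀ d < φ.length, ¬ cf φ (o c) (o d) := fun c hc d hd h => by
    obtain ⟨i, a, b⟩ := (hE _ _).1 (e3 _ (o2 c hc.le) (o d) (by have := h.2.1; omega))
    obtain ⟨j, a', b'⟩ := (hE _ _).1 (e3 _ (o2 d hd.le) (o c) (by have := h.1; omega))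
    obtain rfl : j = i + 1 := h1 (by
      rw [a] at b; rw [a']
      simp only [inn, Prod.ext_iff] at *
      grind)
    exact C i b b'
  refine ⟨fun v => decide (∃ c < φ.length, lit φ (o c) = (v, true)), fun cl h => ?_⟩
  obtain ⟨c, hc, rfl⟩ := List.getElem_of_mem h
  have t : decide (∃ d < φ.length, lit φ (o d) = ((lit φ (o c)).1, true)) = (lit φ (o c)).2 := by
    cases q : (lit φ (o c)).2
    · refine decide_eq_false fun ⟨d, hd, e⟩ => nc c hc d hd ⟨?_, ?_, by rw [e], by simp [e, q]⟩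
      · have := o1 c hc.le; omega
      · have := o1 d hd.le; omega
    · exact decide_eq_true ⟨c, hc, Prod.ext rfl q⟩
  have : lit φ (o c) = φ[c].1 ∨ lit φ (o c) = φ[c].2.1 ∨ lit φ (o c) = φ[c].2.2 := by
    simp only [lit, o1 c hc.le, List.getD_eq_getElem _ _ hc]
    split_ifs <;> simp
  rcases this with e | e | e <;> rw [e] at t <;> simp only [t, true_or, or_true]

lemma dm (N t : ℕ) (h : 0 < N) : ((t + 1) / N = t / N ∧ (t + 1) % N = t % N + 1) ∨
    (t % N + 1 = N ∧ (t + 1) % N = 0 ∧ (t + 1) / N = t / N + 1) := by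
  obtain ⟨c, q, hq, rfl⟩ : ∃ c q, q < N ∧ t = N * c + q := ⟨_, _, Nat.mod_lt t h, (Nat.div_add_mod _ _).symm⟩
  by_cases e : q + 1 < N
  · simp [add_assoc, Nat.mul_add_div h, Nat.div_eq_of_lt, Nat.mod_eq_of_lt, e, hq]
  · obtain rfl : N = q + 1 := by omega
    right
    rw [add_assoc, ← Nat.mul_succ]
    simp [Nat.mul_add_div h, Nat.div_eq_of_lt]

lemma fw (h : Sat3 φ) : ∃ (m : ℕ) (x : Fin (m + 2) → Vy), x.Injective ∧ (∀ i, x i ∈ verts φ) ∧
    ∑ i, cw φ (x i) (x (i + 1)) < 0 ∧ ¬ Even (m + 2) := by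
  obtain ⟨τ, h⟩ := h
  have : ∀ c, ∃ o, o / 3 = c ∧ (c < φ.length → τ (lit φ o).1 = (lit φ o).2) := fun c => by
    by_cases hc : c < φ.length
    · rcases h φ[c] (List.getElem_mem _) with e | e | e
      · exact ⟨3 * c, by omega, fun _ => by simpa [lit, hc] using e⟩
      · exact ⟨3 * c + 1, by omega, fun _ => by simpa [lit, hc, Nat.mul_add_div] using e⟩
      · exact ⟨3 * c + 2, by omega, fun _ => by simpa [lit, hc, Nat.mul_add_div] using e⟩
    · exact ⟨3 * c, by omega, fun e => absurd e hc⟩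
  choose o o1 o2 using this
  have nc : ∀ c d, ¬ cf φ (o c) (o d) := fun c d ⟨a, b, e, g⟩ => g (by
    have := o1 c
    have := o1 d
    rw [← o2 c (by omega), ← o2 d (by omega), e])
  obtain ⟨N, hN⟩ : ∃ N, N = 3 * φ.length + 3 := ⟨_, rfl⟩
  obtain ⟨T, hT⟩ : ∃ T, T + 1 = N * (φ.length + 1) := ⟨N * (φ.length + 1) - 1, by
    have : 0 < N * (φ.length + 1) := by rw [hN]; positivity
    omega⟩
  obtain ⟨x, hx⟩ : ∃ x : ℕ → Vy, ∀ i, x i = if i = 0 then (2, 0, 0) else
    if i % 2 = 1 then (0, o ((i - 1) / 2 / N), (i - 1) / 2 % N) else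
    if cf φ (o ((i - 1) / 2 / N)) ((i - 1) / 2 % N) then (0, (i - 1) / 2 % N, o ((i - 1) / 2 / N)) else
      (1, o ((i - 1) / 2 / N), (i - 1) / 2 % N) := ⟨_, fun _ => rfl⟩
  have N0 : 0 < N := by omega
  refine ⟨2 * T + 1, fun i => x i, fun i j e => Fin.ext ?_, fun i => ?_, ?_, by simp [parity_simps]⟩
  · have a := Nat.div_add_mod ((i.1 - 1) / 2) N
    have b := Nat.div_add_mod ((j.1 - 1) / 2) N
    have c := o1 ((i.1 - 1) / 2 / N)
    have d := o1 ((j.1 - 1) / 2 / N)
    have f := nc ((i.1 - 1) / 2 / N) ((j.1 - 1) / 2 / N)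
    have g := nc ((j.1 - 1) / 2 / N) ((i.1 - 1) / 2 / N)
    have k : (i.1 - 1) / 2 / N = (j.1 - 1) / 2 / N → (i.1 - 1) / 2 % N = (j.1 - 1) / 2 % N →
      (i.1 - 1) / 2 = (j.1 - 1) / 2 := fun p q => by rw [← a, ← b, p, q]
    clear a b
    simp only [hx] at e
    split_ifs at e <;> simp only [Prod.mk.injEq] at e <;> grind
  · have a := Nat.mod_lt ((i.1 - 1) / 2) N0
    have b := o1 ((i.1 - 1) / 2 / N)
    have c : (i.1 - 1) / 2 / N < φ.length + 1 := Nat.div_lt_of_lt_mul (by omega)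
    simp only [hx, verts]
    split_ifs <;> simp <;> omega
  · obtain ⟨π, hπ⟩ : ∃ π : Fin (2 * T + 1 + 2) → ℤ, ∀ i, π i = if i.1 ≠ 0 ∧ i.1 % 2 = 0 then -1 else 0 :=
      ⟨_, fun _ => rfl⟩
    have s := Equiv.sum_comp (Equiv.addRight (1 : Fin (2 * T + 1 + 2))) π
    simp only [Equiv.coe_addRight] at s
    have g1 : ∀ a b, gd φ.length a b → cw φ a b ≤ if rt a ∨ rt b then 0 else 1 := fun a b g => by
      unfold cw; grind
    have g2 : ∀ t, ∀ y, nx φ.length (o (t / N)) (t % N) y → gd φ.length (x (2 * t + 2)) y := fun t y n => by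
      rw [hx, if_neg (by omega), if_neg (by omega), show (2 * t + 2 - 1) / 2 = t by omega]
      split_ifs <;> simp [gd, n]
    have l : cw φ (x (2 * T + 2)) (x 0) ≤ 0 := by
      refine (g1 _ _ (g2 T _ (Or.inl ⟨by simp [hx, rt], ?_⟩))).trans (by simp [hx 0, rt])
      have a := dm N T N0
      have b := o1 (T / N)
      rw [hT, Nat.mul_mod_right, Nat.mul_div_cancel_left _ N0] at a
      omega
    refine (sum_lt_sum (g := fun i => π (i + 1) - π i) (fun i _ => ?_) ⟨Fin.last _, mem_univ _, ?_⟩).trans_eq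
      (by rw [sum_sub_distrib, s, sub_self])
    · simp only [hπ, Fin.val_add_one]
      by_cases e : i = Fin.last _
      · subst e; simp at l ⊢; omega
      simp only [e, if_false]
      obtain e | ⟨t, e | e⟩ : i.1 = 0 ∨ ∃ t, i.1 = 2 * t + 1 ∨ i.1 = 2 * t + 2 := by
        by_cases c : i.1 = 0
        exacts [Or.inl c, Or.inr ⟨(i.1 - 1) / 2, by omega⟩]
      · rw [e]
        refine (g1 _ _ (Or.inl ?_)).trans (by simp [hx 0, rt])
        have := o1 0
        simp [hx, rt]; omega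
      · rw [e, if_pos (by omega), if_neg (by omega), cw, if_pos]
        · simp
        rw [hx, hx, if_neg (by omega), if_pos (by omega), if_neg (by omega), if_neg (by omega),
          show (2 * t + 1 + 1 - 1) / 2 = t by omega, show (2 * t + 1 - 1) / 2 = t by omega]
        split_ifs with c <;> simp [inn, c]
      · rw [e, if_neg (by omega), if_pos (by omega)]
        refine (g1 _ _ (g2 t _ (Or.inr ?_))).trans (by split_ifs <;> simp)
        rw [hx, if_neg (by omega), if_pos (by omega), show (2 * t + 2 + 1 - 1) / 2 = t + 1 by omega]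
        have a := dm N t N0
        have b := o1 (t / N)
        have c := o1 ((t + 1) / N)
        grind
    · simp [hπ] at l ⊢; omega

theorem result (C : List (List Bool) → Prop) (hC : ∀ A, IsGraph A → C A) :
    CoNPHard (Lang fun z => C z.1 ∧ EvenNC z) := by
  refine (hard_sat3.red red_pt fun φ => ?_).coNPHard
  obtain ⟨h0, f, h1, h2, h3, h4⟩ := graph_kit (verts φ) (· ≠ ·) (fun _ _ => Ne.symm) (by simp)
    (List.nodup_range.product (List.nodup_range.product List.nodup_range)) (M := (red φ).1) rfl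
  have w : ∀ a b : Fin (red φ).1.length, wt (red φ).2 a b = code φ (f a) (f b) := fun a b => by
    simp [wt, red, h4 a, h4 b]
  simp only [hC _ h0, true_and, EvenNC, w, val_code, not_and, not_forall]
  constructor
  · intro h _
    obtain ⟨m, x, a, b, c, d⟩ := fw h
    choose g hg using fun i => (h2 (x i)).2 (b i)
    refine ⟨m, g, fun i j e => a (by rw [← hg, ← hg, e]), fun i => (adj_iff h0 _ _).1 ((h1 _ _).2 ?_), ?_, d⟩
    · rw [hg, hg]; simp [a.ne_iff]
    · simp only [hg]; exact_mod_cast c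
  · intro h
    obtain ⟨m, x, a, -, c, d⟩ := h fun i j e => by
      obtain ⟨p, q, -⟩ := (mat_get _ _ _ _).1 e
      rw [w ⟨i, by simpa [red] using p⟩ ⟨j, by simpa [red] using q⟩]
      simp [code, bin]
    refine bw (h3.comp a) (fun i => ?_) (by exact_mod_cast c) d
    have := (h2 (f (x i))).1 ⟨_, rfl⟩
    simp only [Function.comp]
    generalize f (x i) = y at *
    obtain ⟨y1, y2, y3⟩ := y
    simp only [verts, List.mem_product, List.mem_range] at this
    exact this.2.2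

end Pool.Agent.Results.MP_d994ca_lc.CoNPHard
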